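import Pool.Agent.Helper79.GalvinFinal

/-!
# Galvin's question: subspaces of scattered ordered spaces are orderable

Own form beside the frozen statement `S13257`, with linear orders given by relations, the
open-interval topology spelled out, and in every universe.

1. Every scattered generalized ordered space is orderable; if the given order has a first point
   (or a last point) `a`, the new order can be chosen with first point `a`.
2. Every scattered subspace of a linearly ordered space `X` is orderable (`X` need not be scattered).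
3. Q1: every subspace of a scattered linearly ordered space is orderable.
-/

set_option autoImplicit false

namespace Pool.Agent.Results.MP_5f379b_gt.Full

open Set Filter Topology Pool.Agent.Helper79.Galvin

universe u

/-- `r` is a (strict) linear order on `Y`. -/
structure IsLinear {Y : Type u} (r : Y → Y → Prop) : Prop where
  irrefl : ∀ x, ¬ r x x
  trans : ∀ x y z, r x y → r y z → r x z
  total : ∀ x y, x ≠ y → r x y ∨ r y x

/-- `r` is a linear order on the topological space `Y`, and the topology of `Y` is the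
open-interval topology of `r`: it is generated by the sets `{x | x < a}` and `{x | a < x}`. -/
def OrderedBy (Y : Type u) [τ : TopologicalSpace Y] (r : Y → Y → Prop) : Prop :=
  IsLinear r ∧ τ = TopologicalSpace.generateFrom {U | ∃ a, U = {x | r x a} ∨ U = {x | r a x}}

/-- The topological space `Y` is orderable. -/
def Orderable (Y : Type u) [TopologicalSpace Y] : Prop := ∃ r : Y → Y → Prop, OrderedBy Y r

/-- The topological space `Y` is scattered: every nonempty subset, with the relative topology, has
an isolated point. -/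
def Scattered (Y : Type u) [TopologicalSpace Y] : Prop :=
  ∀ A : Set Y, A.Nonempty → ∃ x : A, IsOpen ({x} : Set A)

/-- `(Y, r)` is a generalized ordered space: `r` is a linear order, the topology is finer than the
open-interval topology, and it has a base of convex sets. -/
structure IsGO (Y : Type u) [TopologicalSpace Y] (r : Y → Y → Prop) : Prop where
  linear : IsLinear r
  open_left : ∀ a, IsOpen {x | r x a}
  open_right : ∀ a, IsOpen {x | r a x}
  base : ∃ B : Set (Set Y), TopologicalSpace.IsTopologicalBasis B ∧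
    ∀ V ∈ B, ∀ x ∈ V, ∀ z ∈ V, ∀ y, r x y → r y z → y ∈ V

/-- The linear order of Mathlib given by a strict linear order. -/
@[reducible] noncomputable def toLinearOrder {Y : Type u} (r : Y → Y → Prop) (h : IsLinear r) :
    LinearOrder Y :=
  { le := fun x y => x = y ∨ r x y
    lt := r
    le_refl := fun x => Or.inl rfl
    le_trans := by
      rintro x y z (rfl | hxy) (rfl | hyz)
      · exact Or.inl rfl
      · exact Or.inr hyz
      · exact Or.inr hxy
      · exact Or.inr (h.trans x y z hxy hyz)
    lt_iff_le_not_ge := by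
      intro x y
      constructor
      · intro hxy
        refine ⟨Or.inr hxy, ?_⟩
        rintro (rfl | hyx)
        · exact h.irrefl _ hxy
        · exact h.irrefl _ (h.trans _ _ _ hxy hyx)
      · rintro ⟨rfl | hxy, h2⟩
        · exact absurd (Or.inl rfl) h2
        · exact hxy
    le_antisymm := by
      rintro x y (rfl | hxy) (hyx | hyx)
      · rfl
      · rfl
      · exact hyx.symm
      · exact absurd (h.trans _ _ _ hxy hyx) (h.irrefl _)
    le_total := by
      intro x y
      by_cases hxy : x = y
      · exact Or.inl (Or.inl hxy)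
      · rcases h.total x y hxy with h1 | h1
        · exact Or.inl (Or.inr h1)
        · exact Or.inr (Or.inr h1)
    toDecidableLE := Classical.decRel _ }

/-- An order in the sense of `Orders` on the whole space gives back the topology. -/
theorem orderedBy_of_orders {Y : Type u} [TopologicalSpace Y] {r : Y → Y → Prop}
    (h : Orders r (Set.univ : Set Y)) : OrderedBy Y r := by
  have hL : ∀ (U : Set Y), IsOpen U → ∀ x ∈ U,
      (∀ y, r y x → y ∈ U) ∨ ∃ a, r a x ∧ ∀ y, r a y → r y x → y ∈ U := by
    intro U hU x hx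
    have hU' : U ∈ 𝓝[Set.univ] x := by
      rw [nhdsWithin_univ]
      exact hU.mem_nhds hx
    rcases h.baseL x trivial U hU' with h1 | ⟨a, _, hax, h1⟩
    · exact Or.inl fun y hy => h1 y trivial hy
    · exact Or.inr ⟨a, hax, fun y hy hyx => h1 y trivial hy hyx⟩
  have hR : ∀ (U : Set Y), IsOpen U → ∀ x ∈ U,
      (∀ y, r x y → y ∈ U) ∨ ∃ a, r x a ∧ ∀ y, r y a → r x y → y ∈ U := by
    intro U hU x hx
    have hU' : U ∈ 𝓝[Set.univ] x := by
      rw [nhdsWithin_univ]
      exact hU.mem_nhds hx
    rcases h.baseR x trivial U hU' with h1 | ⟨a, _, hax, h1⟩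
    · exact Or.inl fun y hy => h1 y trivial hy
    · exact Or.inr ⟨a, hax, fun y hy hyx => h1 y trivial hyx hy⟩
  have htot : ∀ x y, x ≠ y → r x y ∨ r y x := fun x y hxy => h.total x trivial y trivial hxy
  have hOL : ∀ a, IsOpen {x | r x a} := by
    intro a
    rw [isOpen_iff_mem_nhds]
    intro x hx
    have h1 := h.openR a trivial x trivial hx
    rw [nhdsWithin_univ] at h1
    exact h1
  have hOR : ∀ a, IsOpen {x | r a x} := by
    intro a
    rw [isOpen_iff_mem_nhds]
    intro x hx
    have h1 := h.openL a trivial x trivial hx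
    rw [nhdsWithin_univ] at h1
    exact h1
  refine ⟨⟨fun x => h.irrefl x trivial, fun x y z => h.trans x trivial y trivial z trivial,
    fun x y hxy => h.total x trivial y trivial hxy⟩, ?_⟩
  apply le_antisymm
  · apply le_generateFrom
    rintro _ ⟨a, rfl | rfl⟩
    · exact hOL a
    · exact hOR a
  · intro U hU
    have key : ∀ σ : TopologicalSpace Y, (∀ a, IsOpen[σ] {x | r x a}) →
        (∀ a, IsOpen[σ] {x | r a x}) → IsOpen[σ] U := by
      intro σ hIio hIoi
      refine (@isOpen_iff_forall_mem_open Y σ U).2 ?_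
      intro x hx
      have hL' : ∃ L : Set Y, IsOpen[σ] L ∧ x ∈ L ∧ ∀ y ∈ L, r y x → y ∈ U := by
        rcases hL U hU x hx with h1 | ⟨a, hax, h1⟩
        · exact ⟨Set.univ, σ.isOpen_univ, trivial, fun y _ hy => h1 y hy⟩
        · exact ⟨_, hIoi a, hax, fun y hy hyx => h1 y hy hyx⟩
      have hR' : ∃ L : Set Y, IsOpen[σ] L ∧ x ∈ L ∧ ∀ y ∈ L, r x y → y ∈ U := by
        rcases hR U hU x hx with h1 | ⟨a, hax, h1⟩
        · exact ⟨Set.univ, σ.isOpen_univ, trivial, fun y _ hy => h1 y hy⟩
        · exact ⟨_, hIio a, hax, fun y hy hyx => h1 y hy hyx⟩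
      obtain ⟨L, hL1, hL2, hL3⟩ := hL'
      obtain ⟨R, hR1, hR2, hR3⟩ := hR'
      refine ⟨L ∩ R, ?_, σ.isOpen_inter L R hL1 hR1, hL2, hR2⟩
      intro y hy
      by_cases hyx : y = x
      · rw [hyx]; exact hx
      · rcases htot y x hyx with h1 | h1
        · exact hL3 y hy.1 h1
        · exact hR3 y hy.2 h1
    exact key _ (fun a => TopologicalSpace.isOpen_generateFrom_of_mem ⟨a, Or.inl rfl⟩)
      fun a => TopologicalSpace.isOpen_generateFrom_of_mem ⟨a, Or.inr rfl⟩

theorem scat_of_scattered {Y : Type u} [TopologicalSpace Y] (h : Scattered Y) : Scat Y := by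
  intro A hA
  obtain ⟨x, hx⟩ := h A hA
  refine ⟨x.1, x.2, ?_⟩
  obtain ⟨U, hU, hUx⟩ := isOpen_induced_iff.1 hx
  have hxU : x.1 ∈ U := by
    have : x ∈ Subtype.val ⁻¹' U := by rw [hUx]; exact rfl
    exact this
  filter_upwards [hU.mem_nhds hxU] with z hz hzA
  have h1 : (⟨z, hzA⟩ : A) ∈ Subtype.val ⁻¹' U := hz
  rw [hUx] at h1
  exact congrArg Subtype.val h1

theorem gos_of_isGO {Y : Type u} [TopologicalSpace Y] {r : Y → Y → Prop} (h : IsGO Y r)
    (hs : Scattered Y) : @GOS Y _ (toLinearOrder r h.linear) := by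
  let _ := toLinearOrder r h.linear
  refine { isOpen_Iio := h.open_left, isOpen_Ioi := h.open_right, convex := ?_,
           scat := scat_of_scattered hs }
  intro x U hU
  obtain ⟨B, hB, hBc⟩ := h.base
  obtain ⟨V, hV, hxV, hVU⟩ := hB.mem_nhds_iff.1 hU
  refine ⟨V, hB.mem_nhds hV hxV, hVU, ⟨?_⟩⟩
  intro a ha b hb c hc
  rcases hc.1 with h1 | h1
  · rw [← h1]; exact ha
  · rcases hc.2 with h2 | h2
    · rw [h2]; exact hb
    · exact hBc V hV a ha b hb c h1 h2

/-- Scattered generalized ordered spaces are orderable, and end points can be made first. -/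
theorem orderable_of_isGO {Y : Type u} [TopologicalSpace Y] {r : Y → Y → Prop} (h : IsGO Y r)
    (hs : Scattered Y) : Orderable Y ∧ ∀ a : Y, ((∀ y, y ≠ a → r a y) ∨ (∀ y, y ≠ a → r y a)) →
      ∃ s : Y → Y → Prop, OrderedBy Y s ∧ ∀ y, y ≠ a → s a y := by
  let _ := toLinearOrder r h.linear
  have hg : GOS Y := gos_of_isGO h hs
  have hG : G (Set.univ : Set Y) := good_of_local ordConnected_univ fun x _ => lhg x
  obtain ⟨⟨s, hs1⟩, hL, hR⟩ := hG
  refine ⟨⟨s, orderedBy_of_orders hs1⟩, ?_⟩
  intro a ha
  have hP : PP (Set.univ : Set Y) a := by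
    rcases ha with ha | ha
    · refine hL a ⟨trivial, ?_⟩
      intro y _
      by_cases hya : y = a
      · exact Or.inl hya.symm
      · exact Or.inr (ha y hya)
    · refine hR a ⟨trivial, ?_⟩
      intro y _
      by_cases hya : y = a
      · exact Or.inl hya
      · exact Or.inr (ha y hya)
  obtain ⟨_, s', hs', hs2⟩ := hP
  exact ⟨s', orderedBy_of_orders hs', fun y hy => hs2 y trivial hy⟩

/-- A subspace of a linearly ordered space is a generalized ordered space. -/
theorem isGO_subtype {X : Type u} [τ : TopologicalSpace X] {r : X → X → Prop}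
    (h : OrderedBy X r) (S : Set X) : IsGO S (fun x y => r x.1 y.1) := by
  let _ := toLinearOrder r h.1
  have hot : OrderTopology X := by
    refine ⟨h.2.trans ?_⟩
    congr 1
    ext U
    constructor
    · rintro ⟨a, rfl | rfl⟩
      · exact ⟨a, Or.inr rfl⟩
      · exact ⟨a, Or.inl rfl⟩
    · rintro ⟨a, rfl | rfl⟩
      · exact ⟨a, Or.inr rfl⟩
      · exact ⟨a, Or.inl rfl⟩
  refine ⟨⟨fun x => h.1.irrefl _, fun x y z => h.1.trans _ _ _, fun x y hxy =>
    h.1.total _ _ fun e => hxy (Subtype.ext e)⟩, fun a => ?_, fun a => ?_, ?_⟩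
  · exact (isOpen_Iio (a := a.1)).preimage continuous_subtype_val
  · exact (isOpen_Ioi (a := a.1)).preimage continuous_subtype_val
  · refine ⟨{V : Set S | IsOpen V ∧ ∀ x ∈ V, ∀ z ∈ V, ∀ y : S, r x.1 y.1 → r y.1 z.1 → y ∈ V},
      ?_, fun V hV => hV.2⟩
    refine TopologicalSpace.isTopologicalBasis_of_isOpen_of_nhds (fun V hV => hV.1) ?_
    intro x U hx hU
    obtain ⟨W, hW, rfl⟩ := isOpen_induced_iff.1 hU
    have hopen : IsOpen (ordConnectedComponent W x.1) := by
      rw [isOpen_iff_mem_nhds]
      intro y hy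
      have hy' : y ∈ W := ordConnectedComponent_subset hy
      have h1 : ordConnectedComponent W y ∈ 𝓝 y :=
        ordConnectedComponent_mem_nhds.2 (hW.mem_nhds hy')
      rwa [← ordConnectedComponent_eq (mem_ordConnectedComponent.1 hy)] at h1
    refine ⟨Subtype.val ⁻¹' (ordConnectedComponent W x.1), ⟨?_, ?_⟩, ?_, ?_⟩
    · exact hopen.preimage continuous_subtype_val
    · intro a ha b hb c hac hcb
      have h1 : (ordConnectedComponent W x.1).OrdConnected := inferInstance
      exact h1.out ha hb ⟨Or.inr hac, Or.inr hcb⟩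
    · exact mem_ordConnectedComponent.2 (by
        intro y hy
        have : y = x.1 := by simpa using hy
        rw [this]
        exact hx)
    · intro y hy
      have hy' : y.1 ∈ ordConnectedComponent W x.1 := hy
      have hy'' : y.1 ∈ W := ordConnectedComponent_subset hy'
      exact hy''

theorem scattered_subtype {X : Type u} [TopologicalSpace X] (h : Scattered X) (S : Set X) :
    Scattered S := by
  intro A hA
  obtain ⟨x, hx⟩ := h (Subtype.val '' A) (hA.image _)
  obtain ⟨x', hx'A, hx'⟩ := x.2
  refine ⟨⟨x', hx'A⟩, ?_⟩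
  obtain ⟨U, hU, hUx⟩ := isOpen_induced_iff.1 hx
  refine isOpen_induced_iff.2 ⟨Subtype.val ⁻¹' U, hU.preimage continuous_subtype_val, ?_⟩
  ext y
  constructor
  · intro hy
    have h1 : (⟨y.1.1, ⟨y.1, y.2, rfl⟩⟩ : (Subtype.val '' A : Set X)) ∈ Subtype.val ⁻¹' U := hy
    rw [hUx] at h1
    have h2 : y.1.1 = x.1 := congrArg Subtype.val h1
    exact Subtype.ext (Subtype.ext (h2.trans hx'.symm))
  · rintro rfl
    have h1 : x ∈ Subtype.val ⁻¹' U := by rw [hUx]; exact rfl
    show x'.1 ∈ U
    rw [hx']
    exact h1

/-- **Galvin's question.** (1) Scattered generalized ordered spaces are orderable, and a first or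
last point of the given order can be made the first point; (2) scattered subspaces of arbitrary
linearly ordered spaces are orderable; (3) Q1. -/
theorem result :
    (∀ (Y : Type u) [TopologicalSpace Y] (r : Y → Y → Prop), IsGO Y r → Scattered Y →
      Orderable Y ∧ ∀ a : Y, ((∀ y, y ≠ a → r a y) ∨ (∀ y, y ≠ a → r y a)) →
        ∃ s : Y → Y → Prop, OrderedBy Y s ∧ ∀ y, y ≠ a → s a y) ∧
    (∀ (X : Type u) [TopologicalSpace X] (r : X → X → Prop), OrderedBy X r →
      ∀ S : Set X, Scattered S → Orderable S) ∧
    (∀ (X : Type u) [TopologicalSpace X] (r : X → X → Prop), OrderedBy X r → Scattered X →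
      ∀ S : Set X, Orderable S) :=
  ⟨fun _ _ _ h hs => orderable_of_isGO h hs,
    fun _ _ _ h S hS => (orderable_of_isGO (isGO_subtype h S) hS).1,
    fun _ _ _ h hX S => (orderable_of_isGO (isGO_subtype h S) (scattered_subtype hX S)).1⟩

end Pool.Agent.Results.MP_5f379b_gt.Full
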